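import Pool.Agent.N84.IN.WQ

/-!
# The irreducible characters of `G ≀ C_q` and their degree classes
-/

set_option autoImplicit false
set_option linter.unusedSectionVars false

open scoped BigOperators Classical

noncomputable section

namespace Pool.Agent.N84.IN

open Pool.Agent.Q90.WR Pool.Agent.H254R3.IN Pool.Agent.Helper884 Pool.Agent.N19.RB
open Pool.Agent.Q259.BW Pool.Agent.Q288.MB

variable {p : ℕ} [hp : Fact p.Prime] {B : Subgroup (ZMod p)ˣ} {q : ℕ} [hq : Fact q.Prime]
variable {G : Type} [Group G] [Fintype G]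

/-- the product of functions, for a constant family of groups -/
def tn {ι : Type} [Fintype ι] {G : Type} (θ : ι → G → ℂ) : (ι → G) → ℂ := tens (K := fun _ => G) θ

theorem tn_irr {ι : Type} [Fintype ι] {θ : ι → G → ℂ} (h : ∀ i, IsIrr (θ i)) : IsIrr (tn θ) :=
  tens_irr (K := fun _ : ι => G) h

theorem tn_inj {ι : Type} [Fintype ι] {θ ψ : ι → G → ℂ} (h : ∀ i, IsIrr (θ i))
    (h' : ∀ i, IsIrr (ψ i)) (he : tn θ = tn ψ) : θ = ψ :=
  tens_inj (K := fun _ : ι => G) h h' he

theorem exists_tn {ι : Type} [Fintype ι] {χ : (ι → G) → ℂ} (h : IsIrr χ) :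
    ∃ θ : ι → G → ℂ, (∀ i, IsIrr (θ i)) ∧ χ = tn θ :=
  exists_tens (K := fun _ : ι => G) h

theorem tn_one {ι : Type} [Fintype ι] (θ : ι → G → ℂ) : tn θ 1 = ∏ i, θ i 1 := rfl

theorem numCls_eq (a : (ZMod p)ˣ ⧸ B) :
    numCls p B a G = ((IC.Irr G).filter fun χ => HasCls p B a χ).card := by
  unfold numCls
  rw [card_filter_eq]

/-- the coefficients of powers in the group ring -/
def Sm {A R : Type} [CommGroup A] [Fintype A] [CommSemiring R] (ι : Type) [Fintype ι] (f : A → R)
    (c : A) : R :=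
  ∑ z : ι → A, if ∏ i, z i = c then ∏ i, f (z i) else 0

theorem Sm_cast {A : Type} [CommGroup A] [Fintype A] (ι : Type) [Fintype ι] (f : A → ℕ) (c : A) :
    ((Sm ι f c : ℕ) : ℤ) = Sm ι (fun a => (f a : ℤ)) c := by
  unfold Sm
  push_cast
  rfl

/-- the numbers for a power of a group -/
theorem numCls_pi {ι : Type} [Fintype ι] [i1 : Fintype (ι → G)] (c : (ZMod p)ˣ ⧸ B) :
    ((IC.Irr (ι → G)).filter fun χ => HasCls p B c χ).card =
      Sm ι (fun x => numCls p B x G) c := by
  have hi : i1 = Pi.instFintype := Subsingleton.elim _ _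
  subst hi
  have hS : Sm ι (fun x => numCls p B x G) c =
      ∑ x ∈ (Finset.univ.filter fun x : ι → (ZMod p)ˣ ⧸ B => ∏ i, x i = c),
        ∏ i, numCls p B (x i) G := by
    rw [Finset.sum_filter]
    refine Finset.sum_congr rfl fun z _ => ?_
    by_cases h : ∏ i, z i = c
    · rw [if_pos h, if_pos h]
    · rw [if_neg h, if_neg h]
  rw [hS]
  have h1 : ((IC.Irr (ι → G)).filter fun χ => HasCls p B c χ) =
      (Finset.univ.filter fun x : ι → (ZMod p)ˣ ⧸ B => ∏ i, x i = c).biUnion fun x =>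
        (Fintype.piFinset fun i => (IC.Irr G).filter fun χ => HasCls p B (x i) χ).image tn := by
    ext χ
    simp only [Finset.mem_filter, IC.mem_Irr, Finset.mem_biUnion, Finset.mem_univ, true_and,
      Finset.mem_image, Fintype.mem_piFinset]
    constructor
    · rintro ⟨h2, h3⟩
      obtain ⟨θ, hθ, rfl⟩ := exists_tn h2
      obtain ⟨x, hx, hc⟩ := (hasCls_prod (χ := tn θ) (fun i => by
        obtain ⟨d, -, hd⟩ := (hθ i).deg
        exact ⟨d, hd.symm⟩) rfl c).mp h3
      exact ⟨x, hc, θ, fun i => ⟨hθ i, hx i⟩, rfl⟩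
    · rintro ⟨x, hc, θ, hθ, rfl⟩
      have h2 : IsIrr (tn θ) := tn_irr fun i => (hθ i).1
      exact ⟨h2, (hasCls_prod (χ := tn θ) (fun i => by
        obtain ⟨d, -, hd⟩ := IsIrr.deg (hθ i).1
        exact ⟨d, hd.symm⟩) rfl c).mpr ⟨x, fun i => (hθ i).2, hc⟩⟩
  rw [h1, Finset.card_biUnion]
  · refine Finset.sum_congr rfl fun x _ => ?_
    rw [Finset.card_image_of_injOn, Fintype.card_piFinset]
    · exact Finset.prod_congr rfl fun i _ => (numCls_eq _).symm
    · intro θ hθ ψ hψ h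
      simp only [Finset.mem_coe, Fintype.mem_piFinset, Finset.mem_filter, IC.mem_Irr] at hθ hψ
      exact tn_inj (fun i => (hθ i).1) (fun i => (hψ i).1) h
  · intro x _ y _ hxy
    change Disjoint _ _
    rw [Finset.disjoint_left]
    intro χ hχ hχ'
    simp only [Finset.mem_image, Fintype.mem_piFinset, Finset.mem_filter, IC.mem_Irr] at hχ hχ'
    obtain ⟨θ, hθ, rfl⟩ := hχ
    obtain ⟨ψ, hψ, h⟩ := hχ'
    have h2 := tn_inj (fun i => (hψ i).1) (fun i => (hθ i).1) h
    subst h2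
    exact hxy (funext fun i => (hθ i).2.unique (hψ i).2)

/-- the invariant characters of the base -/
theorem invt_tn {θ : ZMod q → G → ℂ} (h : ∀ i, IsIrr (θ i)) :
    Invt (rot q G) (tn θ) ↔ ∀ i, θ i = θ 0 := by
  have h1 : ∀ t : Cq q, (fun n => tn θ (rot q G t n)) = tn fun i => θ (i - t.toAdd) := by
    intro t
    funext n
    change ∏ i, θ i (n (i + t.toAdd)) = ∏ i, θ (i - t.toAdd) (n i)
    refine Fintype.prod_equiv (Equiv.addRight t.toAdd) _ _ fun i => ?_
    simp only [Equiv.coe_addRight, add_sub_cancel_right]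
  constructor
  · intro h2 i
    have h3 := h2 (Multiplicative.ofAdd i)
    rw [h1] at h3
    have h4 := tn_inj (fun j => h _) h h3
    have h5 := congrFun h4 i
    simp only [toAdd_ofAdd, sub_self] at h5
    exact h5.symm
  · intro h2 t
    rw [h1]
    congr 1
    funext i
    rw [h2, h2 i]

/-- the number of invariant characters of the base in a degree class -/
theorem card_invt (hB : B.index.Coprime q) (c : (ZMod p)ˣ ⧸ B) :
    ((IC.Irr (ZMod q → G)).filter fun χ => Invt (rot q G) χ ∧ HasCls p B c χ).card =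
      numCls p B (rt hB c) G := by
  rw [numCls_eq]
  have hcard : ∀ θ : G → ℂ, IsIrr θ → (HasCls p B c (tn fun _ : ZMod q => θ) ↔
      HasCls p B (rt hB c) θ) := by
    intro θ hθ
    rw [hasCls_prod (χ := tn fun _ : ZMod q => θ) (fun i => by
        obtain ⟨d, -, hd⟩ := hθ.deg
        exact ⟨d, hd.symm⟩) rfl c]
    constructor
    · rintro ⟨x, hx, hc⟩
      have h1 : ∀ i, x i = x 0 := fun i => (hx i).unique (hx 0)
      rw [Finset.prod_congr rfl fun i _ => h1 i, Finset.prod_const, Finset.card_univ,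
        ZMod.card] at hc
      rw [rt_eq.mpr hc]
      exact hx 0
    · intro h
      refine ⟨fun _ => rt hB c, fun _ => h, ?_⟩
      rw [Finset.prod_const, Finset.card_univ, ZMod.card]
      exact rt_eq.mp rfl
  have h1 : ((IC.Irr (ZMod q → G)).filter fun χ => Invt (rot q G) χ ∧ HasCls p B c χ) =
      ((IC.Irr G).filter fun χ => HasCls p B (rt hB c) χ).image fun θ => tn fun _ : ZMod q => θ := by
    ext χ
    simp only [Finset.mem_filter, IC.mem_Irr, Finset.mem_image]
    constructor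
    · rintro ⟨h2, h3, h4⟩
      obtain ⟨θ, hθ, rfl⟩ := exists_tn h2
      have h5 : θ = fun _ => θ 0 := funext fun i => (invt_tn hθ).mp h3 i
      rw [h5] at h4 ⊢
      exact ⟨θ 0, ⟨hθ 0, (hcard _ (hθ 0)).mp h4⟩, rfl⟩
    · rintro ⟨θ, ⟨h2, h3⟩, rfl⟩
      refine ⟨tn_irr fun _ => h2, ?_, (hcard _ h2).mpr h3⟩
      exact (invt_tn (θ := fun _ => θ) fun _ => h2).mpr fun _ => rfl
  rw [h1, Finset.card_image_of_injOn]
  intro θ hθ ψ hψ h
  simp only [Finset.mem_coe, Finset.mem_filter, IC.mem_Irr] at hθ hψ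
  exact congrFun (tn_inj (θ := fun _ : ZMod q => θ) (ψ := fun _ : ZMod q => ψ) (fun _ => hθ.1)
    (fun _ => hψ.1) h) 0

/-- **The number of the irreducible characters of `G ≀ C_q` in a degree class.** -/
theorem numCls_wq (hqp : (q : ZMod p) ≠ 0) (hB : B.index.Coprime q) (a : (ZMod p)ˣ ⧸ B) :
    q * numCls p B a (WQ q G) + numCls p B (rt hB (a * (cl B hqp)⁻¹)) G =
      Sm (ZMod q) (fun x => numCls p B x G) (a * (cl B hqp)⁻¹) +
        q * (q * numCls p B (rt hB a) G) := by
  have : Fintype (WQ q G) := Fintype.ofFinite _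
  set R : ℂ → Prop := fun z => HasCls p B a (fun _ : Unit → ℤˣ => z) with hR
  have hRχ : ∀ {H : Type} [Group H] (χ : H → ℂ), R (χ 1) ↔ HasCls p B a χ := fun χ =>
    hasCls_congr rfl a
  have h1 := count_q (q := q) (φ := rot q G) R
  have e1 : ((IC.Irr ((ZMod q → G) ⋊[rot q G] Cq q)).filter fun χ => R (χ 1)).card =
      numCls p B a (WQ q G) := by
    rw [numCls_congr (wqSd q G), numCls_eq]
    exact congrArg Finset.card (Finset.filter_congr fun χ _ => hRχ χ)
  have e2 : ((IC.Irr (ZMod q → G)).filter fun θ => Invt (rot q G) θ ∧ R (θ 1)).card =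
      numCls p B (rt hB a) G := by
    rw [← card_invt]
    exact congrArg Finset.card (Finset.filter_congr fun χ _ => and_congr_right fun _ => hRχ χ)
  have hq1 : ∀ θ : (ZMod q → G) → ℂ, IsIrr θ →
      (R (q * θ 1) ↔ HasCls p B (a * (cl B hqp)⁻¹) θ) := by
    intro θ hθ
    obtain ⟨d, -, hd⟩ := hθ.deg
    exact hasCls_mul hqp (χ := θ) (ψ := fun _ : Unit → ℤˣ => (q : ℂ) * θ 1) hd.symm rfl a
  have e3 : ((IC.Irr (ZMod q → G)).filter fun θ => ¬ Invt (rot q G) θ ∧ R (q * θ 1)).card +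
      numCls p B (rt hB (a * (cl B hqp)⁻¹)) G =
      ((IC.Irr (ZMod q → G)).filter fun χ => HasCls p B (a * (cl B hqp)⁻¹) χ).card := by
    rw [← card_invt hB (a * (cl B hqp)⁻¹), ← Finset.card_union_of_disjoint]
    · congr 1
      ext θ
      simp only [Finset.mem_union, Finset.mem_filter, IC.mem_Irr]
      constructor
      · rintro (⟨h2, -, h3⟩ | ⟨h2, -, h3⟩)
        · exact ⟨h2, (hq1 θ h2).mp h3⟩
        · exact ⟨h2, h3⟩
      · rintro ⟨h2, h3⟩
        by_cases h4 : Invt (rot q G) θ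
        · exact Or.inr ⟨h2, h4, h3⟩
        · exact Or.inl ⟨h2, h4, (hq1 θ h2).mpr h3⟩
    · rw [Finset.disjoint_left]
      intro θ hθ hθ'
      exact (Finset.mem_filter.mp hθ).2.1 (Finset.mem_filter.mp hθ').2.1
  rw [e1, e2] at h1
  rw [numCls_pi] at e3
  omega

end Pool.Agent.N84.IN
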