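import Pool.Agent.N84.IN.CritQ

/-!
# Bijections which preserve degree classes
-/

set_option autoImplicit false

open scoped BigOperators Classical

noncomputable section

namespace Pool.Agent.N84.IN

open Pool.Agent.Helper884.IC Pool.Agent.Q90.WR
open Pool.Agent.N19.RB (numCh)

variable {p : ℕ} [hp : Fact p.Prime] {B : Subgroup (ZMod p)ˣ}

section defs

/-- The irreducible complex characters of `G` of degree prime to `p`. -/
def IrrP (p : ℕ) (G : Type) [Group G] : Set (G → ℂ) := {χ | IsIrrChar χ ∧ PrimeDeg p χ}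

/-- There is a bijection `f` between the irreducible characters of `G` of degree prime to `p` and
those of `N` such that `f(χ)(1)` is congruent modulo `p` to the product of `χ(1)` and an element of
the subgroup `B` of `(ℤ/p)ˣ`, for all `χ`. -/
def BijMod (p : ℕ) (B : Subgroup (ZMod p)ˣ) (G N : Type) [Group G] [Group N] : Prop :=
  ∃ f : IrrP p G ≃ IrrP p N, ∀ (χ : IrrP p G) (m n : ℕ), χ.1 1 = m → (f χ).1 1 = n →
    ∃ b ∈ B, (n : ZMod p) = b * m

end defs

/-- the class of a character in `IrrP` -/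
theorem exists_cls {G : Type} [Group G] (χ : IrrP p G) : ∃ a, HasCls p B a χ.1 := by
  obtain ⟨n, h1, h2⟩ := χ.2.2
  have h3 : (n : ZMod p) ≠ 0 := by
    rw [Ne, ZMod.natCast_eq_zero_iff]
    exact h2
  exact ⟨_, hasCls_mk0 h1.symm h3⟩

/-- the class of a character in `IrrP` -/
def clsOf (B : Subgroup (ZMod p)ˣ) {G : Type} [Group G] (χ : IrrP p G) : (ZMod p)ˣ ⧸ B :=
  (exists_cls χ).choose

theorem clsOf_spec {G : Type} [Group G] (χ : IrrP p G) : HasCls p B (clsOf B χ) χ.1 :=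
  (exists_cls χ).choose_spec

theorem clsOf_eq {G : Type} [Group G] {χ : IrrP p G} {a : (ZMod p)ˣ ⧸ B} :
    clsOf B χ = a ↔ HasCls p B a χ.1 :=
  ⟨fun h => h ▸ clsOf_spec χ, fun h => (clsOf_spec χ).unique h⟩

theorem HasCls.prime {G : Type} [Group G] {χ : G → ℂ} {a : (ZMod p)ˣ ⧸ B} (h : HasCls p B a χ) :
    PrimeDeg p χ := by
  obtain ⟨n, u, h1, h2, -⟩ := h
  refine ⟨n, h1.symm, ?_⟩
  rw [← ZMod.natCast_eq_zero_iff, h2]
  exact u.ne_zero

/-- the fibres of the class map -/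
theorem card_fib {G : Type} [Group G] (a : (ZMod p)ˣ ⧸ B) :
    Nat.card {χ : IrrP p G // clsOf B χ = a} = numCls p B a G := by
  unfold numCls
  refine Nat.card_congr ?_
  refine ⟨fun χ => ⟨χ.1.1, χ.1.2.1, clsOf_eq.mp χ.2⟩,
    fun χ => ⟨⟨χ.1, χ.2.1, χ.2.2.prime⟩, clsOf_eq.mpr χ.2.2⟩, fun χ => rfl, fun χ => rfl⟩

theorem finite_IrrP {G : Type} [Group G] [Finite G] : Finite (IrrP p G) := by
  have := Fintype.ofFinite G
  exact ((irr_finite (G := G)).subset fun χ h => h.1).to_subtype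

theorem cls_rel {G N : Type} [Group G] [Group N] {χ : IrrP p G} {ψ : IrrP p N} :
    clsOf B χ = clsOf B ψ ↔
      ∀ m n : ℕ, χ.1 1 = m → ψ.1 1 = n → ∃ b ∈ B, (n : ZMod p) = b * m := by
  obtain ⟨m, h1, h2⟩ := χ.2.2
  obtain ⟨n, h3, h4⟩ := ψ.2.2
  have h5 : (m : ZMod p) ≠ 0 := by rwa [Ne, ZMod.natCast_eq_zero_iff]
  have h6 : (n : ZMod p) ≠ 0 := by rwa [Ne, ZMod.natCast_eq_zero_iff]
  have e1 : clsOf B χ = ((Units.mk0 _ h5 : (ZMod p)ˣ) : (ZMod p)ˣ ⧸ B) :=
    clsOf_eq.mpr (hasCls_mk0 h1.symm h5)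
  have e2 : clsOf B ψ = ((Units.mk0 _ h6 : (ZMod p)ˣ) : (ZMod p)ˣ ⧸ B) :=
    clsOf_eq.mpr (hasCls_mk0 h3.symm h6)
  rw [e1, e2, QuotientGroup.eq]
  constructor
  · intro h m' n' hm hn
    have h7 : m' = m := by exact_mod_cast hm.symm.trans h1.symm
    have h8 : n' = n := by exact_mod_cast hn.symm.trans h3.symm
    subst h7 h8
    refine ⟨_, h, ?_⟩
    rw [Units.val_mul, Units.val_inv_eq_inv_val, Units.val_mk0, Units.val_mk0]
    field_simp
  · intro h
    obtain ⟨b, hb, h7⟩ := h m n h1.symm h3.symm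
    have h8 : (Units.mk0 (m : ZMod p) h5)⁻¹ * Units.mk0 (n : ZMod p) h6 = b := by
      rw [inv_mul_eq_iff_eq_mul]
      apply Units.ext
      rw [Units.val_mul, Units.val_mk0, Units.val_mk0, h7, mul_comm]
    rw [h8]
    exact hb

/-- bijections and numbers -/
theorem bijMod_iff {G N : Type} [Group G] [Group N] [Finite G] [Finite N] :
    BijMod p B G N ↔ ∀ a, numCls p B a G = numCls p B a N := by
  have := finite_IrrP (p := p) (G := G)
  have := finite_IrrP (p := p) (G := N)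
  constructor
  · rintro ⟨f, hf⟩ a
    rw [← card_fib, ← card_fib]
    refine Nat.card_congr (Equiv.subtypeEquiv f fun χ => ?_)
    rw [cls_rel.mpr (hf χ)]
  · intro h
    have e : ∀ a, Nonempty ({χ : IrrP p G // clsOf B χ = a} ≃ {ψ : IrrP p N // clsOf B ψ = a}) := by
      intro a
      have h1 : Nat.card {χ : IrrP p G // clsOf B χ = a} =
          Nat.card {ψ : IrrP p N // clsOf B ψ = a} := by
        rw [card_fib, card_fib, h]
      exact ⟨(Finite.equivFin _).trans ((finCongr h1).trans (Finite.equivFin _).symm)⟩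
    refine ⟨(Equiv.sigmaFiberEquiv (clsOf B)).symm.trans
      ((Equiv.sigmaCongrRight fun a => (e a).some).trans (Equiv.sigmaFiberEquiv (clsOf B))),
      fun χ => cls_rel.mp ?_⟩
    simp only [Equiv.trans_apply]
    exact ((e (clsOf B χ)).some ⟨χ, rfl⟩).2.symm

/-! ### characters whose number of conjugates is prime to `q` -/

theorem hasCls_gal {G : Type} [Group G] {χ : G → ℂ} {a : (ZMod p)ˣ ⧸ B} (h : HasCls p B a χ)
    (σ : ℂ ≃+* ℂ) : HasCls p B a (fun g => σ (χ g)) := by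
  obtain ⟨n, u, h1, h2, h3⟩ := h
  refine ⟨n, u, ?_, h2, h3⟩
  change σ (χ 1) = n
  rw [h1, map_natCast]

/-- The number of irreducible characters of `G` whose degree is prime to `p` and has the class `a`
in `(ℤ/p)ˣ / B`, and whose number of Galois conjugates is not divisible by `q`. -/
def numCo (q p : ℕ) [Fact p.Prime] (B : Subgroup (ZMod p)ˣ) (a : (ZMod p)ˣ ⧸ B) (G : Type)
    [Group G] : ℕ :=
  Nat.card {χ : G → ℂ // (IsIrrChar χ ∧ HasCls p B a χ) ∧ ¬ q ∣ numCh χ}

theorem numCo_mod (q : ℕ) (a : (ZMod p)ˣ ⧸ B) (G : Type) [Group G] [Finite G] :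
    numCls p B a G ≡ numCo q p B a G [MOD q] := by
  have := Fintype.ofFinite G
  exact conj_mod q (A := {χ : G → ℂ | IsIrrChar χ ∧ HasCls p B a χ})
    ((irr_finite (G := G)).subset fun χ h => h.1) fun σ χ h => ⟨irr_gal σ h.1, hasCls_gal h.2 σ⟩

theorem numCo_iff (q : ℕ) (a : (ZMod p)ˣ ⧸ B) (G N : Type) [Group G] [Finite G] [Group N]
    [Finite N] : numCls p B a G ≡ numCls p B a N [MOD q] ↔
      numCo q p B a G ≡ numCo q p B a N [MOD q] :=
  ⟨fun h => (numCo_mod q a G).symm.trans (h.trans (numCo_mod q a N)),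
    fun h => (numCo_mod q a G).trans (h.trans (numCo_mod q a N).symm)⟩

end Pool.Agent.N84.IN
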