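import Pool.Agent.N84.IN.CntQ
import Pool.Agent.N19.RB.Def

/-!
# Degree classes: the criterion modulo a prime `q`
-/

set_option autoImplicit false
set_option linter.unusedSectionVars false

open scoped BigOperators Classical

noncomputable section

namespace Pool.Agent.N84.IN

open Pool.Agent.Helper884.IC Pool.Agent.Q90.WR

/-! ### The arithmetic step -/

theorem pow_dvd_aux {R : Type} [CommRing R] {q : ℕ} {m u v : R} (hq : (q : R) ∣ m)
    (h : m ∣ u - v) : (q : R) * m ∣ u ^ q - v ^ q := by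
  have h1 : (q : R) ∣ ∑ i ∈ Finset.range q, u ^ i * v ^ (q - 1 - i) :=
    (dvd_geom_sum₂_iff_of_dvd_sub (hq.trans h)).mpr (Dvd.intro _ rfl)
  have h2 := mul_dvd_mul h1 h
  rwa [geom_sum₂_mul] at h2

section arith

variable {A : Type} [CommGroup A] [Fintype A] {q : ℕ} [hq : Fact q.Prime]

/-- the coefficients of the `q`-th power in the group ring -/
def T (q : ℕ) [Fact q.Prime] (x : A → ℤ) (c : A) : ℤ := Sm (ZMod q) x c

/-- the element of the group ring -/
def U (x : A → ℤ) : MonoidAlgebra ℤ A := ∑ a, MonoidAlgebra.single a (x a)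

theorem coeff_U (x : A → ℤ) (c : A) : (U x).coeff c = x c := by
  unfold U
  rw [MonoidAlgebra.coeff_sum, Finsupp.finsetSum_apply]
  simp [MonoidAlgebra.coeff_single, Finsupp.single_apply]

theorem prod_single {ι : Type} (s : Finset ι) (z : ι → A) (x : ι → ℤ) :
    ∏ i ∈ s, MonoidAlgebra.single (z i) (x i) = MonoidAlgebra.single (∏ i ∈ s, z i) (∏ i ∈ s, x i) := by
  induction s using Finset.induction_on with
  | empty => rfl
  | insert i s hi ih =>
    rw [Finset.prod_insert hi, Finset.prod_insert hi, Finset.prod_insert hi, ih,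
      MonoidAlgebra.single_mul_single]

theorem coeff_U_pow' {ι : Type} [Fintype ι] (x : A → ℤ) (c : A) :
    (U x ^ Fintype.card ι).coeff c = Sm ι x c := by
  have h1 : U x ^ Fintype.card ι =
      ∑ z : ι → A, MonoidAlgebra.single (∏ i, z i) (∏ i, x (z i)) := by
    have h2 : U x ^ Fintype.card ι = ∏ _i : ι, U x := by
      rw [Finset.prod_const, Finset.card_univ]
    rw [h2]
    unfold U
    rw [Finset.prod_univ_sum, Fintype.piFinset_univ]
    exact Finset.sum_congr rfl fun z _ => prod_single _ _ _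
  rw [h1, MonoidAlgebra.coeff_sum, Finsupp.finsetSum_apply]
  unfold Sm
  refine Finset.sum_congr rfl fun z _ => ?_
  rw [MonoidAlgebra.coeff_single, Finsupp.single_apply]

theorem coeff_U_pow (x : A → ℤ) (c : A) : (U x ^ q).coeff c = T q x c := by
  have h := coeff_U_pow' (ι := ZMod q) x c
  rwa [ZMod.card] at h

theorem T_dvd {m : ℤ} (hm : (q : ℤ) ∣ m) {x y : A → ℤ} (h : ∀ a, m ∣ x a - y a) (c : A) :
    q * m ∣ T q x c - T q y c := by
  choose d hd using h
  have h1 : (m : MonoidAlgebra ℤ A) ∣ U x - U y := by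
    refine ⟨U d, ?_⟩
    rw [← zsmul_eq_mul]
    apply MonoidAlgebra.ext
    ext a
    rw [MonoidAlgebra.coeff_sub, MonoidAlgebra.coeff_smul]
    simp only [Finsupp.coe_sub, Pi.sub_apply, Finsupp.coe_smul, Pi.smul_apply, coeff_U, hd,
      smul_eq_mul]
  have h2 : (q : MonoidAlgebra ℤ A) ∣ (m : MonoidAlgebra ℤ A) := by
    obtain ⟨k, rfl⟩ := hm
    exact ⟨k, by push_cast; rfl⟩
  obtain ⟨w, hw⟩ := pow_dvd_aux h2 h1
  refine ⟨w.coeff c, ?_⟩
  have h3 : U x ^ q - U y ^ q = ((q * m : ℤ)) • w := by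
    rw [hw, zsmul_eq_mul]
    push_cast
    rfl
  have h4 := congrArg (fun v => v.coeff c) h3
  simp only [MonoidAlgebra.coeff_sub, MonoidAlgebra.coeff_smul, Finsupp.coe_sub, Pi.sub_apply,
    Finsupp.coe_smul, Pi.smul_apply, coeff_U_pow, smul_eq_mul] at h4
  exact h4

/-- the arithmetic step -/
theorem step_q {J : ℕ} {x y x' y' : A → ℤ} {t : A} {r : A → A} (hr : ∀ b, r (b ^ q) = b)
    (hx : ∀ a, q * x' a + x (r (a * t⁻¹)) = T q x (a * t⁻¹) + q * (q * x (r a)))
    (hy : ∀ a, q * y' a + y (r (a * t⁻¹)) = T q y (a * t⁻¹) + q * (q * y (r a)))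
    (h : ∀ a, (q : ℤ) ^ (J + 1) ∣ x a - y a) (h' : ∀ a, (q : ℤ) ^ (J + 1) ∣ x' a - y' a) (b : A) :
    (q : ℤ) ^ (J + 2) ∣ x b - y b := by
  have e1 : b ^ q * t * t⁻¹ = b ^ q := mul_inv_cancel_right _ _
  have hx1 := hx (b ^ q * t)
  have hy1 := hy (b ^ q * t)
  rw [e1, hr] at hx1 hy1
  set a := b ^ q * t
  have e0 : (q : ℤ) ^ (J + 2) = q * (q : ℤ) ^ (J + 1) := by ring
  have h1 : (q : ℤ) ^ (J + 2) ∣ T q x (b ^ q) - T q y (b ^ q) := by
    rw [e0]
    exact T_dvd (Dvd.intro_left _ (pow_succ _ _).symm) h _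
  have h3 : (q : ℤ) ^ (J + 2) ∣ q * (x' a - y' a) := by
    rw [e0]
    exact mul_dvd_mul_left _ (h' a)
  have h4 : (q : ℤ) ^ (J + 2) ∣ q * (q * (x (r a) - y (r a))) := by
    rw [e0]
    exact mul_dvd_mul_left _ ((h (r a)).mul_left _)
  have e2 : x b - y b = (T q x (b ^ q) - T q y (b ^ q)) -
      q * (x' a - y' a) + q * (q * (x (r a) - y (r a))) := by
    linear_combination hx1 - hy1
  rw [e2]
  exact dvd_add (dvd_sub h1 h3) h4

end arith

variable {p : ℕ} [hp : Fact p.Prime] {B : Subgroup (ZMod p)ˣ} {q : ℕ} [hq : Fact q.Prime]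

theorem numCls_wq_int (hqp : (q : ZMod p) ≠ 0) (hB : B.index.Coprime q) (G : Type) [Group G]
    [Finite G] (a : (ZMod p)ˣ ⧸ B) :
    (q : ℤ) * (numCls p B a (WQ q G) : ℤ) + (numCls p B (rt hB (a * (cl B hqp)⁻¹)) G : ℤ) =
      T q (fun x => (numCls p B x G : ℤ)) (a * (cl B hqp)⁻¹) +
        q * (q * (numCls p B (rt hB a) G : ℤ)) := by
  have := Fintype.ofFinite G
  have h := congrArg (Nat.cast : ℕ → ℤ) (numCls_wq (G := G) hqp hB a)
  push_cast at h
  rw [Sm_cast] at h
  exact h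

/-- the numbers for `G ≀ C_q` -/
theorem wq_pair (hqp : (q : ZMod p) ≠ 0) (hB : B.index.Coprime q) (G : Type) [Group G]
    [Finite G] (P : Sylow p G) :
    ∃ Q : Sylow p (WQ q G),
      ∀ a, (q : ℤ) * (numCls p B a
        (Subgroup.normalizer ((Q : Subgroup (WQ q G)) : Set (WQ q G))) : ℤ) +
        (numCls p B (rt hB (a * (cl B hqp)⁻¹))
          (Subgroup.normalizer ((P : Subgroup G) : Set G)) : ℤ) =
      T q (fun x => (numCls p B x (Subgroup.normalizer ((P : Subgroup G) : Set G)) : ℤ))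
          (a * (cl B hqp)⁻¹) +
        q * (q * (numCls p B (rt hB a) (Subgroup.normalizer ((P : Subgroup G) : Set G)) : ℤ)) := by
  have hne : q ≠ p := by
    rintro rfl
    exact hqp (ZMod.natCast_self q)
  obtain ⟨Q, hQ⟩ := exists_sylowq hne P
  have e : Nonempty (Subgroup.normalizer ((Q : Subgroup (WQ q G)) : Set (WQ q G)) ≃*
      WQ q (Subgroup.normalizer ((P : Subgroup G) : Set G))) := by
    rw [hQ]
    exact ⟨normEquivq q _⟩
  obtain ⟨e⟩ := e
  refine ⟨Q, fun a => ?_⟩
  rw [numCls_congr e]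
  exact numCls_wq_int hqp hB _ a

theorem dvd_of_levels_q (hqp : (q : ZMod p) ≠ 0) (hB : B.index.Coprime q) : ∀ (J : ℕ) (G : Type)
    [Group G] [Finite G] (P : Sylow p G),
    (∀ j ≤ J, ∀ Q : Sylow p (WQN q j G), ∀ a, numCls p B a (WQN q j G) ≡
      numCls p B a (Subgroup.normalizer ((Q : Subgroup (WQN q j G)) : Set (WQN q j G))) [MOD q]) →
    ∀ a, (q : ℤ) ^ (J + 1) ∣ (numCls p B a G : ℤ) -
      numCls p B a (Subgroup.normalizer ((P : Subgroup G) : Set G)) := by
  intro J
  induction J with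
  | zero =>
    intro G _ _ P H a
    rw [zero_add, pow_one]
    exact Nat.modEq_iff_dvd.mp (H 0 le_rfl P a).symm
  | succ J ih =>
    intro G _ _ P H
    obtain ⟨Q, e2⟩ := wq_pair hqp hB G P
    have h3 := ih (WQ q G) Q fun j hj R => H (j + 1) (by omega) R
    have h4 := ih G P fun j hj R => H j (by omega) R
    exact step_q (q := q) (x := fun a => (numCls p B a G : ℤ))
      (y := fun a => (numCls p B a (Subgroup.normalizer ((P : Subgroup G) : Set G)) : ℤ))
      (x' := fun a => (numCls p B a (WQ q G) : ℤ))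
      (y' := fun a => (numCls p B a
        (Subgroup.normalizer ((Q : Subgroup (WQ q G)) : Set (WQ q G))) : ℤ))
      (t := cl B hqp) (r := rt hB) (fun b => rt_pow b) (numCls_wq_int hqp hB G) e2 h4 h3

theorem eq_levels_q (hqp : (q : ZMod p) ≠ 0) (hB : B.index.Coprime q) : ∀ (J : ℕ) (G : Type)
    [Group G] [Finite G] (P : Sylow p G),
    (∀ a, numCls p B a G = numCls p B a (Subgroup.normalizer ((P : Subgroup G) : Set G))) →
    ∀ Q : Sylow p (WQN q J G), ∀ a, numCls p B a (WQN q J G) =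
      numCls p B a (Subgroup.normalizer ((Q : Subgroup (WQN q J G)) : Set (WQN q J G))) := by
  intro J
  induction J with
  | zero =>
    intro G _ _ P H Q a
    obtain ⟨e⟩ := norm_equiv P Q
    exact (H a).trans (numCls_congr e a)
  | succ J ih =>
    intro G _ _ P H Q
    obtain ⟨R, e2⟩ := wq_pair hqp hB G P
    refine ih (WQ q G) R (fun a => ?_) Q
    have h1 := numCls_wq_int hqp hB G a
    simp_rw [H] at h1
    have h2 : (q : ℤ) * (numCls p B a (WQ q G) : ℤ) =
        q * numCls p B a (Subgroup.normalizer ((R : Subgroup (WQ q G)) : Set (WQ q G))) :=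
      add_right_cancel (h1.trans (e2 a).symm)
    have h3 : (q : ℤ) ≠ 0 := by exact_mod_cast hq.out.ne_zero
    exact_mod_cast mul_left_cancel₀ h3 h2

/-- **The criterion modulo `q` for a single group.** -/
theorem criterion_q (hqp : (q : ZMod p) ≠ 0) (hB : B.index.Coprime q) (G : Type) [Group G]
    [Finite G] (P : Sylow p G) :
    (∀ a, numCls p B a G = numCls p B a (Subgroup.normalizer ((P : Subgroup G) : Set G))) ↔
    ∀ j, q ^ j ≤ Nat.card G → ∀ Q : Sylow p (WQN q j G), ∀ a, numCls p B a (WQN q j G) ≡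
      numCls p B a (Subgroup.normalizer ((Q : Subgroup (WQN q j G)) : Set (WQN q j G)))
        [MOD q] := by
  have hq1 : 1 < q := hq.out.one_lt
  constructor
  · intro h j _ Q a
    rw [eq_levels_q hqp hB j G P h Q a]
  · intro H a
    have hG : 0 < Nat.card G := Nat.card_pos
    set J := Nat.log q (Nat.card G) with hJ
    have h3 : ∀ j ≤ J, q ^ j ≤ Nat.card G := fun j hj =>
      (Nat.pow_le_pow_right hq.out.pos hj).trans (Nat.pow_log_le_self q hG.ne')
    have h4 := dvd_of_levels_q hqp hB J G P (fun j hj => H j (h3 j hj)) a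
    have h5 : Nat.card G < q ^ (J + 1) := Nat.lt_pow_succ_log_self hq1 _
    have h6 := numCls_le (p := p) (B := B) a G
    have h7 := (numCls_le (p := p) (B := B) a
      (Subgroup.normalizer ((P : Subgroup G) : Set G))).trans (Subgroup.card_le_card_group _)
    have h8 : |(numCls p B a G : ℤ) -
        numCls p B a (Subgroup.normalizer ((P : Subgroup G) : Set G))| < (q : ℤ) ^ (J + 1) := by
      have h9 : (Nat.card G : ℤ) < (q : ℤ) ^ (J + 1) := by exact_mod_cast h5
      rw [abs_lt]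
      constructor <;> omega
    have h9 := Int.eq_zero_of_abs_lt_dvd h4 h8
    omega

/-! ### characters whose number of Galois conjugates is prime to `q`

The following lemma generalizes the one of `Pool/Agent/N19/RB/Par.lean` (helper19). -/

section parity

open Pool.Agent.N19.RB (numCh)

variable {G : Type}

/-- the conjugates -/
def conjs (χ : G → ℂ) : Set (G → ℂ) := {ψ | ∃ σ : ℂ ≃+* ℂ, ψ = fun g => σ (χ g)}

theorem conjs_self (χ : G → ℂ) : χ ∈ conjs χ := ⟨1, rfl⟩

theorem conjs_eq {χ ψ : G → ℂ} : conjs ψ = conjs χ ↔ ψ ∈ conjs χ := by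
  constructor
  · intro h
    rw [← h]
    exact conjs_self ψ
  · rintro ⟨σ, rfl⟩
    ext φ
    constructor
    · rintro ⟨τ, rfl⟩
      exact ⟨τ * σ, rfl⟩
    · rintro ⟨τ, rfl⟩
      refine ⟨τ * σ⁻¹, funext fun g => ?_⟩
      change τ (χ g) = τ (σ⁻¹ (σ (χ g)))
      congr 1
      exact (σ.symm_apply_apply _).symm

theorem conj_mod (q : ℕ) {A : Set (G → ℂ)} (hA : A.Finite)
    (hs : ∀ σ : ℂ ≃+* ℂ, ∀ χ ∈ A, (fun g => σ (χ g)) ∈ A) :
    Nat.card A ≡ Nat.card {χ // χ ∈ A ∧ ¬ q ∣ numCh χ} [MOD q] := by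
  have hfin : {χ | χ ∈ A ∧ ¬ q ∣ numCh χ}.Finite := hA.subset fun χ h => h.1
  have c1 : Nat.card A = hA.toFinset.card := Nat.card_eq_card_finite_toFinset hA
  have c2 : Nat.card {χ // χ ∈ A ∧ ¬ q ∣ numCh χ} =
      (hA.toFinset.filter fun χ => ¬ q ∣ numCh χ).card := by
    have h1 : Nat.card {χ // χ ∈ A ∧ ¬ q ∣ numCh χ} = hfin.toFinset.card :=
      Nat.card_eq_card_finite_toFinset hfin
    rw [h1]
    congr 1
    ext χ
    simp
  have key : ∀ χ ∈ A, (hA.toFinset.filter fun ψ => conjs ψ = conjs χ).card = numCh χ := by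
    intro χ hχ
    unfold numCh
    rw [← Set.ncard_coe_finset]
    congr 1
    ext ψ
    rw [Finset.mem_coe, Finset.mem_filter, Set.Finite.mem_toFinset, conjs_eq]
    constructor
    · exact fun h => h.2
    · rintro ⟨σ, rfl⟩
      exact ⟨hs σ χ hχ, ⟨σ, rfl⟩⟩
  rw [c1, c2, Finset.card_eq_sum_card_image conjs hA.toFinset,
    Finset.card_eq_sum_card_fiberwise (f := conjs) (t := hA.toFinset.image conjs)
      (s := hA.toFinset.filter fun χ => ¬ q ∣ numCh χ)
      (fun χ hχ => Finset.mem_coe.mpr (Finset.mem_image_of_mem _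
        (Finset.mem_filter.mp (Finset.mem_coe.mp hχ)).1))]
  rw [← ZMod.natCast_eq_natCast_iff, Nat.cast_sum, Nat.cast_sum]
  refine Finset.sum_congr rfl fun c hc => ?_
  obtain ⟨χ, hχ, rfl⟩ := Finset.mem_image.mp hc
  rw [Set.Finite.mem_toFinset] at hχ
  rw [Finset.filter_filter]
  by_cases ho : q ∣ numCh χ
  · rw [key χ hχ, Finset.filter_false_of_mem, Finset.card_empty, Nat.cast_zero,
      ZMod.natCast_eq_zero_iff]
    · exact ho
    · rintro ψ - ⟨h1, h2⟩
      apply h1
      change q ∣ (conjs ψ).ncard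
      rw [h2]
      exact ho
  · congr 2
    refine Finset.filter_congr fun ψ _ => ?_
    constructor
    · intro h
      refine ⟨?_, h⟩
      change ¬ q ∣ (conjs ψ).ncard
      rw [h]
      exact ho
    · exact fun h => h.2

end parity

end Pool.Agent.N84.IN
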