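import Pool.Agent.Q90.WR.Tower

/-!
# Classes of character degrees modulo `p`
-/

set_option autoImplicit false

open scoped BigOperators Classical

noncomputable section

namespace Pool.Agent.N84.IN

open Pool.Agent.Helper884.IC Pool.Agent.Q90.WR

section defs

variable (p : ℕ) [hp : Fact p.Prime] (B : Subgroup (ZMod p)ˣ)

/-- The value `χ 1` (the degree of `χ`, if `χ` is a character) is a natural number prime to `p`
whose class in `(ℤ/p)ˣ / B` is `a`. -/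
def HasCls (a : (ZMod p)ˣ ⧸ B) {G : Type} [Group G] (χ : G → ℂ) : Prop :=
  ∃ (n : ℕ) (u : (ZMod p)ˣ), χ 1 = n ∧ (n : ZMod p) = u ∧ (u : (ZMod p)ˣ ⧸ B) = a

/-- The number of irreducible characters of `G` whose degree is prime to `p` and has the class `a`
in `(ℤ/p)ˣ / B`. -/
def numCls (a : (ZMod p)ˣ ⧸ B) (G : Type) [Group G] : ℕ :=
  Nat.card {χ : G → ℂ // IsIrrChar χ ∧ HasCls p B a χ}

end defs

variable {p : ℕ} [hp : Fact p.Prime] {B : Subgroup (ZMod p)ˣ}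

theorem HasCls.unique {G : Type} [Group G] {χ : G → ℂ} {a b : (ZMod p)ˣ ⧸ B}
    (h : HasCls p B a χ) (h' : HasCls p B b χ) : a = b := by
  obtain ⟨n, u, h1, h2, rfl⟩ := h
  obtain ⟨m, v, h3, h4, rfl⟩ := h'
  have h5 : n = m := by exact_mod_cast h1.symm.trans h3
  subst h5
  have h6 : u = v := Units.ext (h2.symm.trans h4)
  rw [h6]

/-- the class of a natural number prime to `p` -/
theorem hasCls_mk0 {G : Type} [Group G] {χ : G → ℂ} {d : ℕ} (hd : χ 1 = d) (h0 : (d : ZMod p) ≠ 0) :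
    HasCls p B ((Units.mk0 (d : ZMod p) h0 : (ZMod p)ˣ) : (ZMod p)ˣ ⧸ B) χ :=
  ⟨d, Units.mk0 _ h0, hd, rfl, rfl⟩

theorem HasCls.ne_zero {G : Type} [Group G] {χ : G → ℂ} {a : (ZMod p)ˣ ⧸ B} {d : ℕ}
    (h : HasCls p B a χ) (hd : χ 1 = d) : (d : ZMod p) ≠ 0 := by
  obtain ⟨n, u, h1, h2, rfl⟩ := h
  have h5 : n = d := by exact_mod_cast h1.symm.trans hd
  subst h5
  rw [h2]
  exact u.ne_zero

variable {q : ℕ}

/-- the class of a natural number prime to `p` -/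
def cl (B : Subgroup (ZMod p)ˣ) (hqp : (q : ZMod p) ≠ 0) : (ZMod p)ˣ ⧸ B :=
  ((Units.mk0 (q : ZMod p) hqp : (ZMod p)ˣ) : (ZMod p)ˣ ⧸ B)

theorem cop_card (hB : B.index.Coprime q) : (Nat.card ((ZMod p)ˣ ⧸ B)).Coprime q := hB

/-- `q`-th roots in the group `(ℤ/p)ˣ / B`, if `q` is prime to its order -/
def rt (hB : B.index.Coprime q) (a : (ZMod p)ˣ ⧸ B) : (ZMod p)ˣ ⧸ B :=
  (powCoprime (cop_card hB)).symm a

/-- the quotient map -/
def mkB (B : Subgroup (ZMod p)ˣ) : (ZMod p)ˣ →* (ZMod p)ˣ ⧸ B where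
  toFun u := (u : (ZMod p)ˣ ⧸ B)
  map_one' := rfl
  map_mul' _ _ := rfl

theorem rt_eq {hB : B.index.Coprime q} {a b : (ZMod p)ˣ ⧸ B} : rt hB a = b ↔ b ^ q = a := by
  unfold rt
  rw [Equiv.symm_apply_eq, powCoprime_apply, eq_comm]

theorem rt_pow {hB : B.index.Coprime q} (a : (ZMod p)ˣ ⧸ B) : rt hB (a ^ q) = a := rt_eq.mpr rfl

theorem mk_prod {ι : Type} (s : Finset ι) (u : ι → (ZMod p)ˣ) :
    ((∏ i ∈ s, u i : (ZMod p)ˣ) : (ZMod p)ˣ ⧸ B) = ∏ i ∈ s, (u i : (ZMod p)ˣ ⧸ B) := by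
  induction s using Finset.induction_on with
  | empty => rfl
  | insert i s hi ih =>
    rw [Finset.prod_insert hi, Finset.prod_insert hi, ← ih]
    rfl

/-- functions with the same value at `1` -/
theorem hasCls_congr {G H : Type} [Group G] [Group H] {χ : G → ℂ} {ψ : H → ℂ} (h : χ 1 = ψ 1)
    (a : (ZMod p)ˣ ⧸ B) : HasCls p B a χ ↔ HasCls p B a ψ := by
  unfold HasCls
  rw [h]

/-- multiplication of the degree by `q` -/
theorem hasCls_mul (hqp : (q : ZMod p) ≠ 0) {G H : Type} [Group G] [Group H] {χ : G → ℂ}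
    {ψ : H → ℂ} {d : ℕ} (hd : χ 1 = d) (h : ψ 1 = q * χ 1) (a : (ZMod p)ˣ ⧸ B) :
    HasCls p B a ψ ↔ HasCls p B (a * (cl B hqp)⁻¹) χ := by
  have h1 : ψ 1 = ((q * d : ℕ) : ℂ) := by rw [h, hd]; push_cast; rfl
  constructor
  · intro h2
    have h3 := h2.ne_zero h1
    have hd0 : (d : ZMod p) ≠ 0 := by
      intro h0
      apply h3
      push_cast
      rw [h0, mul_zero]
    have h4 := h2.unique (hasCls_mk0 h1 h3)
    have h5 : (Units.mk0 _ h3 : (ZMod p)ˣ) = Units.mk0 _ hqp * Units.mk0 _ hd0 := by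
      apply Units.ext
      simp
    have h6 : a * (cl B hqp)⁻¹ = ((Units.mk0 _ hd0 : (ZMod p)ˣ) : (ZMod p)ˣ ⧸ B) := by
      rw [h4, h5, QuotientGroup.mk_mul]
      exact mul_inv_cancel_comm (G := (ZMod p)ˣ ⧸ B) _ _
    rw [h6]
    exact hasCls_mk0 hd hd0
  · intro h2
    have hd0 := h2.ne_zero hd
    have h3 : ((q * d : ℕ) : ZMod p) ≠ 0 := by
      push_cast
      exact mul_ne_zero hqp hd0
    have h4 := h2.unique (hasCls_mk0 hd hd0)
    have h5 : (Units.mk0 _ h3 : (ZMod p)ˣ) = Units.mk0 _ hqp * Units.mk0 _ hd0 := by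
      apply Units.ext
      simp
    have h6 : a = ((Units.mk0 _ h3 : (ZMod p)ˣ) : (ZMod p)ˣ ⧸ B) := by
      rw [h5, QuotientGroup.mk_mul, ← h4]
      exact (mul_mul_inv_cancel'_right (G := (ZMod p)ˣ ⧸ B) _ _).symm
    rw [h6]
    exact hasCls_mk0 h1 h3

/-- products of degrees -/
theorem hasCls_prod {ι : Type} [Fintype ι] {K : Type} [Group K] {θ : ι → K → ℂ} {G : Type}
    [Group G] {χ : G → ℂ} (hθ : ∀ i, ∃ d : ℕ, θ i 1 = d) (h : χ 1 = ∏ i, θ i 1)
    (a : (ZMod p)ˣ ⧸ B) :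
    HasCls p B a χ ↔ ∃ x : ι → (ZMod p)ˣ ⧸ B, (∀ i, HasCls p B (x i) (θ i)) ∧ ∏ i, x i = a := by
  choose d hd using hθ
  have h1 : χ 1 = ((∏ i, d i : ℕ) : ℂ) := by
    rw [h]; push_cast
    exact Finset.prod_congr rfl fun i _ => hd i
  constructor
  · intro h2
    have h3 := h2.ne_zero h1
    have hd0 : ∀ i, (d i : ZMod p) ≠ 0 := by
      intro i h0
      apply h3
      push_cast
      exact Finset.prod_eq_zero (Finset.mem_univ i) h0
    refine ⟨fun i => _, fun i => hasCls_mk0 (hd i) (hd0 i), ?_⟩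
    rw [h2.unique (hasCls_mk0 h1 h3)]
    have h5 : (Units.mk0 _ h3 : (ZMod p)ˣ) = ∏ i, Units.mk0 _ (hd0 i) := by
      apply Units.ext
      simp
    rw [h5]
    exact (mk_prod _ _).symm
  · rintro ⟨x, hx, rfl⟩
    have hd0 : ∀ i, (d i : ZMod p) ≠ 0 := fun i => (hx i).ne_zero (hd i)
    have h3 : ((∏ i, d i : ℕ) : ZMod p) ≠ 0 := by
      push_cast
      exact Finset.prod_ne_zero_iff.mpr fun i _ => hd0 i
    have h5 : (Units.mk0 _ h3 : (ZMod p)ˣ) = ∏ i, Units.mk0 _ (hd0 i) := by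
      apply Units.ext
      simp
    have h6 : ∏ i, x i = ((Units.mk0 _ h3 : (ZMod p)ˣ) : (ZMod p)ˣ ⧸ B) := by
      rw [h5, Finset.prod_congr rfl fun i _ => (hx i).unique (hasCls_mk0 (hd i) (hd0 i))]
      exact (mk_prod _ _).symm
    rw [h6]
    exact hasCls_mk0 h1 h3

theorem hasCls_comp {H K : Type} [Group H] [Group K] (e : H ≃* K) {χ : K → ℂ}
    (a : (ZMod p)ˣ ⧸ B) : HasCls p B a (fun g => χ (e g)) ↔ HasCls p B a χ := by
  unfold HasCls
  simp

theorem numCls_congr {H K : Type} [Group H] [Group K] (e : H ≃* K) (a : (ZMod p)ˣ ⧸ B) :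
    numCls p B a H = numCls p B a K := by
  unfold numCls
  rw [card_transport e]
  simp_rw [hasCls_comp e]

theorem numCls_le (a : (ZMod p)ˣ ⧸ B) (G : Type) [Group G] [Finite G] :
    numCls p B a G ≤ Nat.card G := by
  have := Fintype.ofFinite G
  unfold numCls
  rw [card_filter_eq]
  exact (Finset.card_filter_le _ _).trans (card_Irr_le G)

end Pool.Agent.N84.IN
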