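import Pool.Agent.N19.RB.Cov
import Pool.Agent.Y62.Transfer

/-!
# The irreducible characters of a semidirect product with a cyclic group of prime order
-/

set_option autoImplicit false
set_option linter.unusedSectionVars false

open scoped BigOperators Classical

noncomputable section

namespace Pool.Agent.N84.IN

open Pool.Agent.Q90.WR Pool.Agent.H254R3.IN Pool.Agent.Helper884 Pool.Agent.N19.RB
open Pool.Agent.Q259.BW Pool.Agent.Q288.MB

open SemidirectProduct (inl)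

variable {q : ℕ} [hq : Fact q.Prime]

/-- the cyclic group of order `q` -/
abbrev Cq (q : ℕ) : Type := Multiplicative (ZMod q)

instance : Fintype (Cq q) := inferInstanceAs (Fintype (ZMod q))

theorem card_Cq : Nat.card (Cq q) = q := by
  rw [Nat.card_congr Multiplicative.toAdd, Nat.card_zmod]

variable {N : Type} [Group N] [Fintype N] {φ : Cq q →* MulAut N}

/-- `θ` is invariant -/
def Invt (φ : Cq q →* MulAut N) (θ : N → ℂ) : Prop := ∀ t, (fun n => θ (φ t n)) = θ

/-- a nontrivial linear character of the cyclic group -/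
def lin (q : ℕ) [NeZero q] : Cq q →* ℂˣ := (ZMod.stdAddChar (N := q)).toMonoidHom.toHomUnits

theorem lin_inj : Function.Injective (lin q) := by
  intro s t h
  have h1 := congrArg (fun u : ℂˣ => (u : ℂ)) h
  exact ZMod.injective_stdAddChar h1

/-- the linear characters of the semidirect product -/
def linW (φ : Cq q →* MulAut N) : N ⋊[φ] Cq q →* ℂˣ := (lin q).comp SemidirectProduct.rightHom

theorem linW_inl (n : N) : linW φ (inl n) = 1 := by
  unfold linW
  simp

/-- twisted characters -/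
def twi (φ : Cq q →* MulAut N) (j : ZMod q) (χ : N ⋊[φ] Cq q → ℂ) (x : N ⋊[φ] Cq q) : ℂ :=
  (((linW φ) ^ j.val) x : ℂˣ) * χ x

theorem twi_irr {χ : N ⋊[φ] Cq q → ℂ} (h : IsIrr χ) (j : ZMod q) : IsIrr (twi φ j χ) :=
  Pool.Agent.Y62.irr_twist h _

theorem twi_inl {χ : N ⋊[φ] Cq q → ℂ} (j : ZMod q) (n : N) : twi φ j χ (inl n) = χ (inl n) := by
  unfold twi
  rw [MonoidHom.pow_apply, linW_inl]
  simp

theorem B_twi {θ : N → ℂ} {χ : N ⋊[φ] Cq q → ℂ} (h : IsIrr χ) (j : ZMod q) :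
    IC.B (indP φ θ) (twi φ j χ) = IC.B (indP φ θ) χ := by
  rw [B_indP θ (twi_irr h j).conj, B_indP θ h.conj]
  simp_rw [twi_inl]

/-- a character fixed by a nontrivial twist vanishes outside of `N` -/
theorem vanish {χ : N ⋊[φ] Cq q → ℂ} {i j : ZMod q} (hij : i ≠ j) (h : twi φ i χ = twi φ j χ)
    {x : N ⋊[φ] Cq q} (hx : x.right ≠ 1) : χ x = 0 := by
  by_contra h0
  have h1 := congrFun h x
  unfold twi at h1
  have h2 := mul_right_cancel₀ h0 h1
  have h3 : ((linW φ) ^ i.val) x = ((linW φ) ^ j.val) x := Units.ext h2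
  rw [MonoidHom.pow_apply, MonoidHom.pow_apply] at h3
  have h4 : linW φ x = lin q x.right := rfl
  rw [h4, ← map_pow, ← map_pow] at h3
  have h5 := lin_inj h3
  have h6 : i.val • (Multiplicative.toAdd x.right) = j.val • (Multiplicative.toAdd x.right) :=
    congrArg Multiplicative.toAdd h5
  rw [nsmul_eq_mul, nsmul_eq_mul, ZMod.natCast_zmod_val, ZMod.natCast_zmod_val] at h6
  have h7 : Multiplicative.toAdd x.right ≠ 0 := fun h => hx h
  exact hij (mul_right_cancel₀ h7 h6)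

theorem res_inv {θ : N → ℂ} (hθ : IsIrr θ) (hi : Invt φ θ) {χ : N ⋊[φ] Cq q → ℂ} (hχ : IsIrr χ)
    (h : IC.B (indP φ θ) χ ≠ 0) (n : N) : χ (inl n) = IC.B (indP φ θ) χ * θ n := by
  rw [res_expand hχ.conj, Finset.sum_eq_single θ]
  · intro ψ hψ hne
    have h1 : IC.B (indP φ ψ) χ = 0 := by
      by_contra h2
      obtain ⟨t, ht⟩ := cliff hθ (IC.mem_Irr.mp hψ) hχ h h2
      rw [hi t] at ht
      exact hne ht
    rw [h1, zero_mul]
  · intro h1
    exact absurd (IC.mem_Irr.mpr hθ) h1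

theorem B_self_inv {θ : N → ℂ} (hθ : IsIrr θ) (hi : Invt φ θ) :
    IC.B (indP φ θ) (indP φ θ) = q := by
  rw [B_indP θ (indP_cl hθ.conj)]
  simp only [indP_inl]
  rw [B_sum_right]
  have : ∀ t : Cq q, IC.B θ (fun n => θ (φ t n)) = 1 := by
    intro t
    rw [hi t, IC.B_irr hθ hθ, if_pos rfl]
  rw [Finset.sum_congr rfl fun t _ => this t, Finset.sum_const, Finset.card_univ, nsmul_eq_mul,
    mul_one, ← Nat.card_eq_fintype_card, card_Cq]

/-- the norm, for functions vanishing outside of `N` -/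
theorem B_vanish {χ : N ⋊[φ] Cq q → ℂ} (h : ∀ x : N ⋊[φ] Cq q, x.right ≠ 1 → χ x = 0) :
    (q : ℂ) * IC.B χ χ = IC.B (fun n => χ (inl n)) (fun n => χ (inl n)) := by
  unfold IC.B
  rw [sum_sd, card_sd, card_Cq]
  have h1 : ∀ n : N, ∑ s : Cq q, χ ⟨n, s⟩ * χ (⟨n, s⟩ : N ⋊[φ] Cq q)⁻¹ =
      χ (inl n) * χ (inl n⁻¹) := by
    intro n
    rw [Finset.sum_eq_single 1]
    · rw [show (⟨n, 1⟩ : N ⋊[φ] Cq q) = inl n from rfl, map_inv]
    · intro s _ hs
      rw [h ⟨n, s⟩ hs, zero_mul]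
    · intro h
      exact absurd (Finset.mem_univ _) h
  rw [Finset.sum_congr rfl fun n _ => h1 n]
  have c1 : (q : ℂ) ≠ 0 := by exact_mod_cast hq.out.ne_zero
  have c2 : (Nat.card N : ℂ) ≠ 0 := by exact_mod_cast Nat.card_pos.ne'
  push_cast
  field_simp

/-- the twists of a character above an invariant one are different -/
theorem twi_inj {θ : N → ℂ} (hθ : IsIrr θ) (hi : Invt φ θ) {χ : N ⋊[φ] Cq q → ℂ} (hχ : IsIrr χ)
    (h : IC.B (indP φ θ) χ ≠ 0) : Function.Injective fun j : ZMod q => twi φ j χ := by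
  intro i j hij
  by_contra hne
  have h1 := B_vanish (φ := φ) (χ := χ) fun x hx => vanish hne hij hx
  obtain ⟨e, he⟩ := mult_nat (φ := φ) hθ hχ
  have h2 : (fun n => χ (inl n)) = (e : ℂ) • θ := by
    funext n
    rw [res_inv hθ hi hχ h, he]
    rfl
  rw [h2, IC.B_smul_left, IC.B_comm θ, IC.B_smul_left, IC.B_irr hθ hθ, IC.B_irr hχ hχ, if_pos rfl,
    if_pos rfl, mul_one, mul_one] at h1
  have h3 : q = e * e := by exact_mod_cast h1
  have h4 : e ∣ q := ⟨e, h3⟩
  rcases (Nat.dvd_prime hq.out).mp h4 with h5 | h5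
  · rw [h5] at h3
    exact hq.out.one_lt.ne' h3
  · rw [h5] at h3
    have h6 := hq.out.one_lt
    nlinarith

/-- **The characters above an invariant character.** -/
theorem above_inv {θ : N → ℂ} (hθ : IsIrr θ) (hi : Invt φ θ) :
    ((IC.Irr (N ⋊[φ] Cq q)).filter fun χ => IC.B (indP φ θ) χ ≠ 0).card = q ∧
      ∀ χ : N ⋊[φ] Cq q → ℂ, IsIrr χ → IC.B (indP φ θ) χ ≠ 0 → χ 1 = θ 1 := by
  obtain ⟨χ₀, h0, ψ, hψ, hB⟩ := Cov_nonempty (φ := φ) (A := {θ}) (by rintro _ rfl; exact hθ)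
    ⟨θ, rfl⟩
  rw [Set.mem_singleton_iff.mp hψ] at hB
  choose! a ha using fun (χ' : N ⋊[φ] Cq q → ℂ) (h : IsIrr χ') => mult_nat (φ := φ) hθ h
  have hsum : ∑ χ ∈ IC.Irr (N ⋊[φ] Cq q), a χ * a χ = q := by
    have h1 := B_self_inv hθ hi
    rw [IC.B_expand _ _ (indP_cl hθ.conj)] at h1
    have h4 : ∑ χ' ∈ IC.Irr (N ⋊[φ] Cq q), IC.B (indP φ θ) χ' * IC.B χ' (indP φ θ) =
        ((∑ χ' ∈ IC.Irr (N ⋊[φ] Cq q), a χ' * a χ' : ℕ) : ℂ) := by
      push_cast
      refine Finset.sum_congr rfl fun χ' h => ?_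
      rw [IC.B_comm χ', ha χ' (IC.mem_Irr.mp h)]
    rw [h4] at h1
    exact_mod_cast h1
  set I := Finset.univ.image fun j : ZMod q => twi φ j χ₀ with hI
  have hIc : I.card = q := by
    rw [hI, Finset.card_image_of_injective _ (twi_inj hθ hi h0 hB), Finset.card_univ, ZMod.card]
  have hIs : I ⊆ IC.Irr (N ⋊[φ] Cq q) := by
    intro χ h
    obtain ⟨j, -, rfl⟩ := Finset.mem_image.mp h
    exact IC.mem_Irr.mpr (twi_irr h0 j)
  have hIa : ∀ χ ∈ I, a χ = a χ₀ := by
    intro χ h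
    obtain ⟨j, -, rfl⟩ := Finset.mem_image.mp h
    have h1 := B_twi (θ := θ) h0 j
    rw [ha _ (twi_irr h0 j), ha _ h0] at h1
    exact_mod_cast h1
  have ha0 : a χ₀ ≠ 0 := by
    intro h
    rw [ha _ h0, h, Nat.cast_zero] at hB
    exact hB rfl
  have hsplit := Finset.sum_sdiff (f := fun χ => a χ * a χ) hIs
  have h5 : ∑ χ ∈ I, a χ * a χ = q * (a χ₀ * a χ₀) := by
    rw [Finset.sum_congr rfl fun χ h => by rw [hIa χ h], Finset.sum_const, hIc, smul_eq_mul]
  rw [hsum, h5] at hsplit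
  have hq0 := hq.out.pos
  have h6 : a χ₀ = 1 := by
    have h7 : 1 ≤ a χ₀ := Nat.one_le_iff_ne_zero.mpr ha0
    by_contra h8
    have h9 : 2 ≤ a χ₀ := by omega
    have h10 : 4 ≤ a χ₀ * a χ₀ := by nlinarith
    have h11 := Nat.mul_le_mul_left q h10
    omega
  rw [h6, mul_one, mul_one] at hsplit
  have h7 : ∑ χ ∈ IC.Irr (N ⋊[φ] Cq q) \ I, a χ * a χ = 0 := by omega
  have h8 : ∀ χ : N ⋊[φ] Cq q → ℂ, IsIrr χ → IC.B (indP φ θ) χ ≠ 0 → χ ∈ I := by
    intro χ hχ hne
    by_contra hI'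
    have h9 := (Finset.sum_eq_zero_iff.mp h7) χ (Finset.mem_sdiff.mpr ⟨IC.mem_Irr.mpr hχ, hI'⟩)
    have h10 : a χ = 0 := by
      rcases Nat.mul_eq_zero.mp h9 with h | h <;> exact h
    rw [ha χ hχ, h10, Nat.cast_zero] at hne
    exact hne rfl
  refine ⟨?_, fun χ hχ hne => ?_⟩
  · have h9 : (IC.Irr (N ⋊[φ] Cq q)).filter (fun χ => IC.B (indP φ θ) χ ≠ 0) = I := by
      ext χ
      rw [Finset.mem_filter]
      constructor
      · rintro ⟨h1, h2⟩
        exact h8 χ (IC.mem_Irr.mp h1) h2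
      · intro h
        refine ⟨hIs h, ?_⟩
        rw [ha χ (IC.mem_Irr.mp (hIs h)), hIa χ h, h6]
        simp
    rw [h9, hIc]
  · have h9 := res_inv hθ hi hχ hne 1
    rw [map_one, ha χ hχ, hIa χ (h8 χ hχ hne), h6, Nat.cast_one, one_mul] at h9
    exact h9

/-- a character which is not invariant has trivial stabiliser -/
theorem dis_of_not {θ : N → ℂ} (hi : ¬ Invt φ θ) : Dis φ {θ} := by
  intro ψ hψ t ht
  rw [Set.mem_singleton_iff.mp hψ] at ht
  let S : Subgroup (Cq q) :=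
    { carrier := {t | (fun n => θ (φ t n)) = θ}
      mul_mem' := by
        intro s t hs ht
        change (fun n => θ (φ (s * t) n)) = θ
        funext n
        rw [map_mul, MulAut.mul_apply]
        exact (congrFun hs (φ t n)).trans (congrFun ht n)
      one_mem' := by
        change (fun n => θ (φ 1 n)) = θ
        funext n
        rw [map_one, MulAut.one_apply]
      inv_mem' := by
        intro s hs
        change (fun n => θ (φ s⁻¹ n)) = θ
        funext n
        have h1 := congrFun hs (φ s⁻¹ n)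
        simp only [map_inv, MulAut.apply_inv_self] at h1
        rw [map_inv]
        exact h1.symm }
  have hc : Fact (Nat.card (Cq q)).Prime := ⟨by rw [card_Cq]; exact hq.out⟩
  rcases S.eq_bot_or_eq_top_of_prime_card with h | h
  · have h1 : t ∈ S := ht
    rw [h, Subgroup.mem_bot] at h1
    exact h1
  · exfalso
    apply hi
    intro s
    have h1 : s ∈ S := by rw [h]; exact Subgroup.mem_top s
    exact h1

theorem indP_irr' {θ : N → ℂ} (hθ : IsIrr θ) (hi : ¬ Invt φ θ) : IsIrr (indP φ θ) :=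
  indP_irr (A := {θ}) (by rintro _ rfl; exact hθ) (dis_of_not hi) rfl

/-- **Counting** the irreducible characters of `N ⋊ C_q` according to their degrees. -/
theorem count_q (R : ℂ → Prop) :
    q * ((IC.Irr (N ⋊[φ] Cq q)).filter fun χ => R (χ 1)).card =
      ((IC.Irr N).filter fun θ => ¬ Invt φ θ ∧ R (q * θ 1)).card +
        q * (q * ((IC.Irr N).filter fun θ => Invt φ θ ∧ R (θ 1)).card) := by
  set F := (IC.Irr N).filter fun θ => ¬ Invt φ θ ∧ R (q * θ 1) with hF
  set E := (IC.Irr N).filter fun θ => Invt φ θ ∧ R (θ 1) with hE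
  have hone : ∀ θ : N → ℂ, indP φ θ 1 = q * θ 1 := by
    intro θ
    rw [indP_one, card_Cq]
  have h1 : F.card = q * (F.image (indP φ)).card := by
    rw [Finset.card_eq_sum_card_image (indP φ), Finset.sum_const_nat (m := q), mul_comm]
    intro χ hχ
    obtain ⟨θ, hθ, rfl⟩ := Finset.mem_image.mp hχ
    obtain ⟨hθ1, hθ2, hθ3⟩ := Finset.mem_filter.mp hθ
    have hθi := IC.mem_Irr.mp hθ1
    have h2 : F.filter (fun ψ => indP φ ψ = indP φ θ) =
        Finset.univ.image fun t : Cq q => fun n => θ (φ t n) := by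
      ext ψ
      rw [Finset.mem_filter, Finset.mem_image]
      constructor
      · rintro ⟨h3, h4⟩
        obtain ⟨h5, h6, -⟩ := Finset.mem_filter.mp h3
        have hψi := IC.mem_Irr.mp h5
        have hi := indP_irr' hθi hθ2
        obtain ⟨t, ht⟩ := cliff hθi hψi hi (by rw [IC.B_irr hi hi, if_pos rfl]; exact one_ne_zero)
          (by rw [h4, IC.B_irr hi hi, if_pos rfl]; exact one_ne_zero)
        exact ⟨t, Finset.mem_univ _, ht.symm⟩
      · rintro ⟨t, -, rfl⟩
        refine ⟨Finset.mem_filter.mpr ⟨IC.mem_Irr.mpr (irr_aut hθi t), ?_, ?_⟩, indP_aut θ t⟩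
        · intro h3
          apply hθ2
          intro s
          funext n
          have h4 := congrFun (h3 (t⁻¹ * s * t)) (φ t⁻¹ n)
          simp only [map_mul, MulAut.mul_apply, map_inv, MulAut.apply_inv_self] at h4
          exact h4
        · change R (q * θ (φ t 1))
          rw [map_one]
          exact hθ3
    rw [h2, Finset.card_image_of_injective, Finset.card_univ, ← Nat.card_eq_fintype_card, card_Cq]
    intro s t hst
    have h3 : (fun n => θ (φ (s * t⁻¹) n)) = θ := by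
      funext n
      have h4 := congrFun hst (φ t⁻¹ n)
      simp only [map_inv, MulAut.apply_inv_self] at h4
      rw [map_mul, MulAut.mul_apply, map_inv]
      exact h4
    have h4 := dis_of_not hθ2 θ rfl (s * t⁻¹) h3
    exact mul_inv_eq_one.mp h4
  have h2 : (E.biUnion fun θ => (IC.Irr (N ⋊[φ] Cq q)).filter fun χ =>
      IC.B (indP φ θ) χ ≠ 0).card = q * E.card := by
    rw [Finset.card_biUnion, Finset.sum_congr rfl fun θ hθ => ?_, Finset.sum_const, smul_eq_mul,
      mul_comm]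
    · obtain ⟨hθ1, hθ2, -⟩ := Finset.mem_filter.mp hθ
      exact (above_inv (IC.mem_Irr.mp hθ1) hθ2).1
    · intro θ hθ ψ hψ hne
      change Disjoint _ _
      rw [Finset.disjoint_left]
      intro χ h3 h4
      obtain ⟨hθ1, hθ2, -⟩ := Finset.mem_filter.mp hθ
      obtain ⟨hψ1, -, -⟩ := Finset.mem_filter.mp hψ
      obtain ⟨h5, h6⟩ := Finset.mem_filter.mp h3
      obtain ⟨t, ht⟩ := cliff (IC.mem_Irr.mp hθ1) (IC.mem_Irr.mp hψ1) (IC.mem_Irr.mp h5) h6
        (Finset.mem_filter.mp h4).2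
      rw [hθ2 t] at ht
      exact hne ht.symm
  have h3 : (IC.Irr (N ⋊[φ] Cq q)).filter (fun χ => R (χ 1)) = F.image (indP φ) ∪
      E.biUnion fun θ => (IC.Irr (N ⋊[φ] Cq q)).filter fun χ => IC.B (indP φ θ) χ ≠ 0 := by
    ext χ
    rw [Finset.mem_filter, Finset.mem_union, Finset.mem_image, Finset.mem_biUnion]
    constructor
    · rintro ⟨hχ, hR⟩
      have hχi := IC.mem_Irr.mp hχ
      obtain ⟨θ, hθ, hB⟩ := exists_below hχi
      by_cases hi : Invt φ θ
      · right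
        refine ⟨θ, Finset.mem_filter.mpr ⟨IC.mem_Irr.mpr hθ, hi, ?_⟩,
          Finset.mem_filter.mpr ⟨hχ, hB⟩⟩
        rw [← (above_inv hθ hi).2 χ hχi hB]
        exact hR
      · left
        have h4 : χ ∈ Cov φ {θ} := ⟨hχi, θ, rfl, hB⟩
        rw [Cov_Dis (by rintro _ rfl; exact hθ) (dis_of_not hi)] at h4
        obtain ⟨ψ, hψ, rfl⟩ := h4
        rw [Set.mem_singleton_iff.mp hψ]
        refine ⟨θ, Finset.mem_filter.mpr ⟨IC.mem_Irr.mpr hθ, hi, ?_⟩, rfl⟩
        rw [← hone, ← Set.mem_singleton_iff.mp hψ]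
        exact hR
    · rintro (⟨θ, hθ, rfl⟩ | ⟨θ, hθ, hχ⟩)
      · obtain ⟨h4, h5, h6⟩ := Finset.mem_filter.mp hθ
        refine ⟨IC.mem_Irr.mpr (indP_irr' (IC.mem_Irr.mp h4) h5), ?_⟩
        rw [hone]
        exact h6
      · obtain ⟨h4, h5, h6⟩ := Finset.mem_filter.mp hθ
        obtain ⟨h7, h8⟩ := Finset.mem_filter.mp hχ
        refine ⟨h7, ?_⟩
        rw [(above_inv (IC.mem_Irr.mp h4) h5).2 χ (IC.mem_Irr.mp h7) h8]
        exact h6
  have h4 : Disjoint (F.image (indP φ))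
      (E.biUnion fun θ => (IC.Irr (N ⋊[φ] Cq q)).filter fun χ => IC.B (indP φ θ) χ ≠ 0) := by
    rw [Finset.disjoint_left]
    intro χ h5 h6
    obtain ⟨θ, hθ, rfl⟩ := Finset.mem_image.mp h5
    obtain ⟨ψ, hψ, h7⟩ := Finset.mem_biUnion.mp h6
    obtain ⟨a1, a2, -⟩ := Finset.mem_filter.mp hθ
    obtain ⟨b1, b2, -⟩ := Finset.mem_filter.mp hψ
    have hi := indP_irr' (IC.mem_Irr.mp a1) a2
    obtain ⟨t, ht⟩ := cliff (IC.mem_Irr.mp b1) (IC.mem_Irr.mp a1) hi (Finset.mem_filter.mp h7).2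
      (by rw [IC.B_irr hi hi, if_pos rfl]; exact one_ne_zero)
    rw [b2 t] at ht
    exact a2 (ht ▸ b2)
  rw [h3, Finset.card_union_of_disjoint h4, h2, mul_add, ← h1]

end Pool.Agent.N84.IN
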