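import Pool.Agent.N84.IN.Inv
import Pool.Agent.N84.IN.Deg

/-!
# Wreath products with a cyclic group of prime order
-/

set_option autoImplicit false
set_option linter.unusedSectionVars false

open scoped BigOperators Classical

noncomputable section

namespace Pool.Agent.N84.IN

open Pool.Agent.Q90.WR Pool.Agent.Helper884 Pool.Agent.N19.RB
open Pool.Agent.Q288.MB

/-- The wreath product `G ≀ C_q`: pairs of a function `ℤ/q → G` and an element of `ℤ/q`. -/
@[ext]
structure WQ (q : ℕ) (G : Type) where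
  /-- the component in the base `G^q` -/
  f : ZMod q → G
  /-- the component in `ℤ/q` -/
  s : ZMod q

namespace WQ

variable {q : ℕ} {G : Type} [Group G]

/-- `(f, s) (f', s') = (i ↦ f(i) f'(i + s), s + s')` -/
instance : Mul (WQ q G) := ⟨fun x y => ⟨fun i => x.f i * y.f (i + x.s), x.s + y.s⟩⟩

instance : One (WQ q G) := ⟨⟨fun _ => 1, 0⟩⟩

instance : Inv (WQ q G) := ⟨fun x => ⟨fun i => (x.f (i - x.s))⁻¹, -x.s⟩⟩

theorem mul_f (x y : WQ q G) (i : ZMod q) : (x * y).f i = x.f i * y.f (i + x.s) := rfl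
theorem mul_s (x y : WQ q G) : (x * y).s = x.s + y.s := rfl
theorem one_f (i : ZMod q) : (1 : WQ q G).f i = 1 := rfl
theorem one_s : (1 : WQ q G).s = 0 := rfl
theorem inv_f (x : WQ q G) (i : ZMod q) : (x⁻¹).f i = (x.f (i - x.s))⁻¹ := rfl
theorem inv_s (x : WQ q G) : (x⁻¹).s = -x.s := rfl

instance instGroup : Group (WQ q G) :=
  Group.ofLeftAxioms
    (fun x y z => by
      ext i
      · simp only [mul_f, mul_s, mul_assoc, add_assoc]
      · simp only [mul_s, add_assoc])
    (fun x => by
      ext i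
      · simp only [mul_f, one_f, one_s, add_zero, one_mul]
      · simp only [mul_s, one_s, zero_add])
    (fun x => by
      ext i
      · simp only [mul_f, inv_f, inv_s, one_f, ← sub_eq_add_neg, inv_mul_cancel]
      · simp only [mul_s, inv_s, one_s, neg_add_cancel])

end WQ

variable {q : ℕ}

/-- elements of the wreath product -/
def wqEquiv (q : ℕ) (G : Type) : WQ q G ≃ (ZMod q → G) × ZMod q where
  toFun x := (x.f, x.s)
  invFun y := ⟨y.1, y.2⟩
  left_inv _ := rfl
  right_inv _ := rfl

instance finite_WQ [NeZero q] (G : Type) [Finite G] : Finite (WQ q G) :=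
  Finite.of_equiv _ (wqEquiv q G).symm

theorem card_WQ [NeZero q] (G : Type) [Finite G] : Nat.card (WQ q G) = Nat.card G ^ q * q := by
  rw [Nat.card_congr (wqEquiv q G), Nat.card_prod, Nat.card_zmod, Nat.card_fun, Nat.card_zmod]

section grp

variable {G : Type} [Group G]

/-- the action of `C_q` on `G^q` -/
def rot (q : ℕ) (G : Type) [Group G] : Cq q →* MulAut (ZMod q → G) where
  toFun t :=
    { toFun := fun f i => f (i + t.toAdd)
      invFun := fun f i => f (i - t.toAdd)
      left_inv := fun f => by funext i; simp only [sub_add_cancel]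
      right_inv := fun f => by funext i; simp only [add_sub_cancel_right]
      map_mul' := fun f g => rfl }
  map_one' := by
    ext f i
    change f (i + 0) = f i
    rw [add_zero]
  map_mul' s t := by
    ext f i
    change f (i + (s.toAdd + t.toAdd)) = f (i + s.toAdd + t.toAdd)
    rw [add_assoc]

theorem rot_apply (t : Cq q) (f : ZMod q → G) (i : ZMod q) : rot q G t f i = f (i + t.toAdd) := rfl

/-- the wreath product as a semidirect product -/
def wqSd (q : ℕ) (G : Type) [Group G] : WQ q G ≃* (ZMod q → G) ⋊[rot q G] Cq q where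
  toFun x := ⟨x.f, Multiplicative.ofAdd x.s⟩
  invFun y := ⟨y.left, y.right.toAdd⟩
  left_inv _ := rfl
  right_inv _ := rfl
  map_mul' _ _ := rfl

/-- the subgroup `P^q` of the base -/
def dblq (q : ℕ) (P : Subgroup G) : Subgroup (WQ q G) where
  carrier := {x | x.s = 0 ∧ ∀ i, x.f i ∈ P}
  one_mem' := ⟨rfl, fun _ => P.one_mem⟩
  mul_mem' := by
    rintro x y ⟨h1, h2⟩ ⟨h3, h4⟩
    exact ⟨by rw [WQ.mul_s, h1, h3, add_zero], fun i => P.mul_mem (h2 i) (h4 _)⟩
  inv_mem' := by
    rintro x ⟨h1, h2⟩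
    exact ⟨by rw [WQ.inv_s, h1, neg_zero], fun i => P.inv_mem (h2 _)⟩

theorem mem_dblq {P : Subgroup G} {x : WQ q G} : x ∈ dblq q P ↔ x.s = 0 ∧ ∀ i, x.f i ∈ P := Iff.rfl

/-- `P^q` as a set -/
def dblqEquiv (q : ℕ) (P : Subgroup G) : dblq q P ≃ (ZMod q → P) where
  toFun x i := ⟨x.1.f i, x.2.2 i⟩
  invFun y := ⟨⟨fun i => (y i : G), 0⟩, rfl, fun i => (y i).2⟩
  left_inv := by
    rintro ⟨⟨f, s⟩, h1, h2⟩
    simp only at h1
    subst h1
    rfl
  right_inv _ := rfl

theorem card_dblq [NeZero q] (P : Subgroup G) : Nat.card (dblq q P) = Nat.card P ^ q := by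
  rw [Nat.card_congr (dblqEquiv q P), Nat.card_fun, Nat.card_zmod]

theorem index_dblq [NeZero q] [Finite G] (P : Subgroup G) :
    (dblq q P).index = q * P.index ^ q := by
  have h1 := (dblq q P).card_mul_index
  have h2 := P.card_mul_index
  rw [card_dblq, card_WQ, ← h2] at h1
  have h3 : 0 < Nat.card P ^ q := pow_pos Nat.card_pos _
  apply Nat.eq_of_mul_eq_mul_left h3
  rw [h1]
  ring

theorem isPGroup_dblq {p : ℕ} [Fact p.Prime] [NeZero q] [Finite G] {P : Subgroup G}
    (h : IsPGroup p P) : IsPGroup p (dblq q P) := by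
  obtain ⟨n, hn⟩ := IsPGroup.iff_card.mp h
  apply IsPGroup.iff_card.mpr
  exact ⟨n * q, by rw [card_dblq, hn, pow_mul]⟩

theorem conj_f (x y : WQ q G) (i : ZMod q) :
    (x * y * x⁻¹).f i = x.f i * y.f (i + x.s) * (x.f (i + y.s))⁻¹ := by
  rw [WQ.mul_f, WQ.mul_f, WQ.inv_f, WQ.mul_s]
  congr 3
  abel

theorem conj_s (x y : WQ q G) : (x * y * x⁻¹).s = y.s := by
  rw [WQ.mul_s, WQ.mul_s, WQ.inv_s]
  abel

theorem mem_normalizer_dblq {P : Subgroup G} {x : WQ q G} :
    x ∈ Subgroup.normalizer (dblq q P : Set (WQ q G)) ↔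
      ∀ i, x.f i ∈ Subgroup.normalizer (P : Set G) := by
  simp only [mem_normalizer, mem_dblq, conj_s]
  have h0 : ∀ y : WQ q G, y.s = 0 → ∀ i, (x * y * x⁻¹).f i =
      x.f i * y.f (i + x.s) * (x.f i)⁻¹ := by
    intro y hy i
    rw [conj_f, hy, add_zero]
  constructor
  · intro h i g
    have h1 := h ⟨Pi.mulSingle (i + x.s) g, 0⟩
    simp only [true_and] at h1
    have h2 : (∀ j, Pi.mulSingle (M := fun _ : ZMod q => G) (i + x.s) g j ∈ P) ↔ g ∈ P := by
      constructor
      · intro h2
        have := h2 (i + x.s)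
        rwa [Pi.mulSingle_eq_same] at this
      · intro h2 j
        by_cases hj : j = i + x.s
        · subst hj
          rwa [Pi.mulSingle_eq_same]
        · rw [Pi.mulSingle_eq_of_ne hj]
          exact P.one_mem
    have h3 : (∀ j, (x * (⟨Pi.mulSingle (i + x.s) g, 0⟩ : WQ q G) * x⁻¹).f j ∈ P) ↔
        x.f i * g * (x.f i)⁻¹ ∈ P := by
      constructor
      · intro h3
        have := h3 i
        rw [h0 _ rfl] at this
        simpa only [Pi.mulSingle_eq_same] using this
      · intro h3 j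
        rw [h0 _ rfl]
        by_cases hj : j = i
        · subst hj
          simpa only [Pi.mulSingle_eq_same] using h3
        · have h4 : j + x.s ≠ i + x.s := fun h => hj (add_right_cancel h)
          simp only [Pi.mulSingle_eq_of_ne h4, mul_one, mul_inv_cancel]
          exact P.one_mem
    rw [← h2, h1, h3]
  · intro h y
    refine and_congr_right fun hy => ?_
    constructor
    · intro h1 i
      rw [h0 y hy, ← h i]
      exact h1 _
    · intro h1 i
      have h2 := h1 (i - x.s)
      rw [h0 y hy, ← h, sub_add_cancel] at h2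
      exact h2

/-- the normalizer of `P^q` is the wreath product of the normalizer of `P` -/
def normEquivq (q : ℕ) (P : Subgroup G) : Subgroup.normalizer (dblq q P : Set (WQ q G)) ≃*
    WQ q (Subgroup.normalizer (P : Set G)) where
  toFun x := ⟨fun i => ⟨x.1.f i, mem_normalizer_dblq.mp x.2 i⟩, x.1.s⟩
  invFun y := ⟨⟨fun i => (y.f i : G), y.s⟩, mem_normalizer_dblq.mpr fun i => (y.f i).2⟩
  left_inv _ := rfl
  right_inv _ := rfl
  map_mul' _ _ := rfl

/-- the Sylow subgroup `P^q`, for a prime `q ≠ p` -/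
theorem exists_sylowq {p : ℕ} [hp : Fact p.Prime] [hq : Fact q.Prime] (hqp : q ≠ p) [Finite G]
    (P : Sylow p G) : ∃ Q : Sylow p (WQ q G), (Q : Subgroup (WQ q G)) = dblq q (P : Subgroup G) := by
  refine ⟨(isPGroup_dblq (q := q) P.isPGroup').toSylow ?_, rfl⟩
  rw [index_dblq]
  intro h
  rcases (Nat.Prime.dvd_mul hp.out).mp h with h | h
  · exact hqp ((Nat.prime_dvd_prime_iff_eq hp.out hq.out).mp h).symm
  · exact P.not_dvd_index (hp.out.dvd_of_dvd_pow h)

end grp

/-- The iterated wreath product `(⋯(G ≀ C_q) ≀ ⋯) ≀ C_q`, with `n` factors `C_q`. -/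
def WQN (q : ℕ) : ℕ → Type → Type
  | 0, G => G
  | n + 1, G => WQN q n (WQ q G)

/-- The group structure of the iterated wreath product. -/
def groupWQN (q : ℕ) : (n : ℕ) → (G : Type) → Group G → Group (WQN q n G)
  | 0, _, i => i
  | n + 1, G, i => groupWQN q n (WQ q G) (@WQ.instGroup q G i)

instance instGroupWQN (q n : ℕ) (G : Type) [i : Group G] : Group (WQN q n G) := groupWQN q n G i

theorem finite_WQN [NeZero q] : ∀ (n : ℕ) (G : Type) [Finite G], Finite (WQN q n G)
  | 0, _, i => i
  | n + 1, G, _ => finite_WQN n (WQ q G)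

instance [NeZero q] (n : ℕ) (G : Type) [Finite G] : Finite (WQN q n G) := finite_WQN n G

end Pool.Agent.N84.IN
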